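import Pool.Agent.helper13.LCL.Nice

/-!
# The parity of the colour outside all islands

If every marker is on a finite strand and every site lies in finitely many islands, then the colour
corrected by the checkerboard colouring is constant on the sites which lie in no island.
-/

namespace LCLZ

variable {L : Cfg}

/-- an island which is not inside another island -/
def Mx (L : Cfg) (a β : ℤ) (N : ℕ) : Prop :=
  Isl L a β N ∧ ∀ a2 β2 N2, Isl L a2 β2 N2 → ¬ Sub L a β N a2 β2 N2

/-- colour corrected by the checkerboard colouring -/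
def pr (L : Cfg) (x y : ℤ) : ZMod 2 := col L x y + x + y

lemma inI_iff {a β : ℤ} {N n : ℕ} (hn : n ≤ N) {y : ℤ} :
    inI L a β N (a + n) y ↔ pos L a β n ≤ y ∧ y ≤ pos L a (β + 10) n := by
  constructor
  · rintro ⟨m, -, hx, h⟩
    have : m = n := by omega
    subst this; exact h
  · intro h
    exact ⟨n, hn, rfl, h⟩

lemma not_inI_left {a β : ℤ} {N : ℕ} {y : ℤ} : ¬ inI L a β N (a - 1) y := by
  rintro ⟨m, -, hx, -⟩; omega

lemma not_inI_right {a β : ℤ} {N : ℕ} {y : ℤ} : ¬ inI L a β N (a + N + 1) y := by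
  rintro ⟨m, hm, hx, -⟩; omega

lemma exists_Mx (nI : ∀ x y, {c : ℤ × ℤ | QI L x y c.1 c.2}.Finite) {x y : ℤ}
    (h : ¬ Out L x y) : ∃ a β N, Mx L a β N ∧ inI L a β N x y := by
  unfold Out at h
  push Not at h
  obtain ⟨a0, β0, N0, hI0, hin0⟩ := h
  obtain ⟨c, hc, hmin⟩ := Set.exists_min_image _ (fun c : ℤ × ℤ => c.1) (nI x y)
    ⟨(a0, β0), N0, hI0, hin0⟩
  obtain ⟨N, hI, hin⟩ := hc
  refine ⟨c.1, c.2, N, ⟨hI, ?_⟩, hin⟩
  intro a2 β2 N2 hI2 hs
  have h1 := hmin (a2, β2) ⟨N2, hI2, hs.mem hin⟩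
  obtain ⟨k, hk, hk2, -⟩ := hs
  simp only at h1
  omega

section
variable (V : ∀ x y, Rl L x y)
include V

lemma Mx.out {a β : ℤ} {N : ℕ} (h : Mx L a β N) {x y x' y' : ℤ} (hin : inI L a β N x' y')
    (hout : ¬ inI L a β N x y) (hx1 : x - x' ≤ 1) (hx2 : x' - x ≤ 1) (hy1 : y - y' ≤ 1)
    (hy2 : y' - y ≤ 1) : Out L x y :=
  fun _ _ _ hI2 hin2 => h.2 _ _ _ hI2 (nbhd V h.1 hI2 hin hout hx1 hx2 hy1 hy2 hin2)

lemma stepH (F : Fn L) (hf : ∀ x y, M L x y → fin L x y) {x y : ℤ} (h1 : Out L x y)
    (h2 : Out L (x + 1) y) : pr L (x + 1) y = pr L x y := by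
  have hn : ¬ hc L x y := by
    rintro (h | h)
    · obtain ⟨a, β, N, hI, hin, -⟩ := X2R V F (hf x y) h
      exact h1 _ _ _ hI hin
    · obtain ⟨a, β, N, hI, hin, -⟩ := X2L V F (hf x (y + 1)) (hf x (y - 1)) h
      exact h2 _ _ _ hI hin
  have h3 := (V x y).cH hn
  have h4 : (2 : ZMod 2) = 0 := rfl
  unfold pr
  rw [h3]
  push_cast
  linear_combination h4

lemma stepV (F : Fn L) (hf : ∀ x y, M L x y → fin L x y) {x y : ℤ} (h1 : Out L x y)
    (h2 : Out L x (y + 1)) : pr L x (y + 1) = pr L x y := by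
  have hn : ¬ vc L x y := by
    rintro (h | h)
    · obtain ⟨a, β, N, hI, hin, -⟩ := X2U V F (hf x y) h
      exact h1 _ _ _ hI hin
    · obtain ⟨a, β, N, hI, hin, -⟩ := X2D V F (hf x (y + 1)) h
      exact h2 _ _ _ hI hin
  have h3 := (V x y).cV hn
  have h4 : (2 : ZMod 2) = 0 := rfl
  unfold pr
  rw [h3]
  push_cast
  linear_combination h4

/-- the left side of the collar -/
lemma left_out {a β : ℤ} {N : ℕ} (h : Mx L a β N) {y : ℤ} (h1 : β - 1 ≤ y) (h2 : y ≤ β + 11) :
    Out L (a - 1) y := by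
  have hin : inI L a β N a (max β (min y (β + 10))) := by
    have := (inI_iff (L := L) (a := a) (β := β) (N := N) (n := 0) (Nat.zero_le _)
      (y := max β (min y (β + 10)))).2 ⟨by simp, by simp⟩
    simpa using this
  refine h.out V hin not_inI_left (by omega) (by omega) ?_ ?_ <;>
  · rcases le_total y (β + 10) with h3 | h3 <;> rcases le_total β y with h4 | h4 <;>
      simp [h3, h4] <;> omega

lemma right_out {a β : ℤ} {N : ℕ} (h : Mx L a β N) {y : ℤ} (h1 : pos L a β N - 1 ≤ y)
    (h2 : y ≤ pos L a (β + 10) N + 1) : Out L (a + N + 1) y := by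
  have hg := h.1.eq
  have hin : inI L a β N (a + N) (max (pos L a β N) (min y (pos L a (β + 10) N))) := by
    refine (inI_iff le_rfl).2 ⟨le_max_left _ _, max_le (by omega) (min_le_right _ _)⟩
  refine h.out V hin not_inI_right (by omega) (by omega) ?_ ?_ <;>
  · rcases le_total y (pos L a (β + 10) N) with h3 | h3 <;>
      rcases le_total (pos L a β N) y with h4 | h4 <;> simp [h3, h4] <;> omega

lemma left_pr (F : Fn L) (hf : ∀ x y, M L x y → fin L x y) {a β : ℤ} {N : ℕ} (h : Mx L a β N) :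
    ∀ k : ℕ, k ≤ 12 → pr L (a - 1) (β - 1 + k) = pr L (a - 1) (β - 1) := by
  intro k
  induction k with
  | zero => intro _; simp
  | succ k ih =>
    intro hk
    rw [← ih (by omega)]
    have := stepV V F hf (left_out V h (y := β - 1 + k) (by omega) (by omega))
      (left_out V h (y := β - 1 + k + 1) (by omega) (by omega))
    rw [← this]; congr 1; push_cast; ring

lemma right_pr (F : Fn L) (hf : ∀ x y, M L x y → fin L x y) {a β : ℤ} {N : ℕ} (h : Mx L a β N) :
    ∀ k : ℕ, k ≤ 12 → pr L (a + N + 1) (pos L a β N - 1 + k) =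
      pr L (a + N + 1) (pos L a β N - 1) := by
  intro k
  have hg := h.1.eq
  induction k with
  | zero => intro _; simp
  | succ k ih =>
    intro hk
    rw [← ih (by omega)]
    have := stepV V F hf (right_out V h (y := pos L a β N - 1 + k) (by omega) (by omega))
      (right_out V h (y := pos L a β N - 1 + k + 1) (by omega) (by omega))
    rw [← this]; congr 1; push_cast; ring

lemma top_out {a β : ℤ} {N : ℕ} (h : Mx L a β N) {n : ℕ} (hn : n ≤ N) :
    Out L (a + n) (pos L a (β + 10) n + 1) := by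
  have hg := h.1.gap V hn
  refine h.out V (x' := a + n) (y' := pos L a (β + 10) n) ((inI_iff hn).2 ⟨by omega, le_rfl⟩) ?_
    (by omega) (by omega) (by omega) (by omega)
  rw [inI_iff hn]; omega

lemma bot_out {a β : ℤ} {N : ℕ} (h : Mx L a β N) {n : ℕ} (hn : n ≤ N) :
    Out L (a + n) (pos L a β n - 1) := by
  have hg := h.1.gap V hn
  refine h.out V (x' := a + n) (y' := pos L a β n) ((inI_iff hn).2 ⟨le_rfl, by omega⟩) ?_
    (by omega) (by omega) (by omega) (by omega)
  rw [inI_iff hn]; omega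

lemma top_pr (F : Fn L) (hf : ∀ x y, M L x y → fin L x y) {a β : ℤ} {N : ℕ} (h : Mx L a β N) :
    ∀ n : ℕ, n ≤ N → pr L (a + n) (pos L a (β + 10) n + 1) = pr L a (β + 11) := by
  intro n
  induction n with
  | zero => intro _; simp; congr 1; ring
  | succ n ih =>
    intro hn
    rw [← ih (by omega)]
    have o1 := top_out V h (n := n) (by omega)
    have o2 := top_out V h hn
    have e : a + ((n + 1 : ℕ) : ℤ) = a + n + 1 := by push_cast; ring
    have g1 := h.1.gap V (n := n) (by omega)
    have g2 := h.1.gap V hn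
    have d1 := le_dv L (a + n) (pos L a (β + 10) n)
    have d2 := dv_le L (a + n) (pos L a (β + 10) n)
    have hs := pos_succ (L := L) a (β + 10) n
    rcases (by omega : dv L (a + n) (pos L a (β + 10) n) = -1 ∨
      dv L (a + n) (pos L a (β + 10) n) = 0 ∨ dv L (a + n) (pos L a (β + 10) n) = 1) with
      hd | hd | hd
    · -- falling: the intermediate site is (a+n+1, hi n + 1)
      rw [hd] at hs
      have o3 : Out L (a + n + 1) (pos L a (β + 10) n + 1) := by
        refine h.out V (x' := a + n) (y' := pos L a (β + 10) n)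
          ((inI_iff (by omega)).2 ⟨by omega, le_rfl⟩) ?_
          (by omega) (by omega) (by omega) (by omega)
        rw [← e, inI_iff hn]; omega
      rw [e] at o2 ⊢
      have e2 : pos L a (β + 10) (n + 1) + 1 + 1 = pos L a (β + 10) n + 1 := by omega
      have s1 := stepH V F hf o1 o3
      have s2 := stepV V F hf o2 (by rw [e2]; exact o3)
      rw [e2] at s2
      rw [← s1, ← s2]
    · rw [hd] at hs
      have e2 : pos L a (β + 10) (n + 1) = pos L a (β + 10) n := by omega
      rw [e, e2] at o2 ⊢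
      exact stepH V F hf o1 o2
    · -- rising: the intermediate site is (a+n, hi n + 2)
      rw [hd] at hs
      have o3 : Out L (a + n) (pos L a (β + 10) n + 1 + 1) := by
        refine h.out V (x' := a + n + 1) (y' := pos L a (β + 10) n + 1)
          (by rw [← e, inI_iff hn]; omega) ?_
          (by omega) (by omega) (by omega) (by omega)
        rw [inI_iff (by omega)]; omega
      rw [e] at o2 ⊢
      have e2 : pos L a (β + 10) (n + 1) + 1 = pos L a (β + 10) n + 1 + 1 := by omega
      rw [e2] at o2 ⊢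
      have s1 := stepH V F hf o3 o2
      have s2 := stepV V F hf o1 o3
      rw [s1, s2]

lemma bot_pr (F : Fn L) (hf : ∀ x y, M L x y → fin L x y) {a β : ℤ} {N : ℕ} (h : Mx L a β N) :
    ∀ n : ℕ, n ≤ N → pr L (a + n) (pos L a β n - 1) = pr L a (β - 1) := by
  intro n
  induction n with
  | zero => intro _; simp
  | succ n ih =>
    intro hn
    rw [← ih (by omega)]
    have o1 := bot_out V h (n := n) (by omega)
    have o2 := bot_out V h hn
    have e : a + ((n + 1 : ℕ) : ℤ) = a + n + 1 := by push_cast; ring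
    have g1 := h.1.gap V (n := n) (by omega)
    have g2 := h.1.gap V hn
    have d1 := le_dv L (a + n) (pos L a β n)
    have d2 := dv_le L (a + n) (pos L a β n)
    have hs := pos_succ (L := L) a β n
    rcases (by omega : dv L (a + n) (pos L a β n) = -1 ∨
      dv L (a + n) (pos L a β n) = 0 ∨ dv L (a + n) (pos L a β n) = 1) with
      hd | hd | hd
    · -- falling: the intermediate site is (a+n, lo n - 2)
      rw [hd] at hs
      have o3 : Out L (a + n) (pos L a β (n + 1) - 1) := by
        refine h.out V (x' := a + n + 1) (y' := pos L a β (n + 1))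
          (by rw [← e, inI_iff hn]; omega) ?_
          (by omega) (by omega) (by omega) (by omega)
        rw [inI_iff (by omega)]; omega
      rw [e] at o2 ⊢
      have e2 : pos L a β (n + 1) - 1 + 1 = pos L a β n - 1 := by omega
      have s1 := stepH V F hf o3 o2
      have s2 := stepV V F hf o3 (by rw [e2]; exact o1)
      rw [e2] at s2
      rw [s1, s2]
    · rw [hd] at hs
      have e2 : pos L a β (n + 1) = pos L a β n := by omega
      rw [e, e2] at o2 ⊢
      exact stepH V F hf o1 o2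
    · -- rising: the intermediate site is (a+n+1, lo n - 1)
      rw [hd] at hs
      have o3 : Out L (a + n + 1) (pos L a β n - 1) := by
        refine h.out V (x' := a + n) (y' := pos L a β n)
          ((inI_iff (by omega)).2 ⟨le_rfl, by omega⟩) ?_
          (by omega) (by omega) (by omega) (by omega)
        rw [← e, inI_iff hn]; omega
      rw [e] at o2 ⊢
      have e2 : pos L a β (n + 1) - 1 = pos L a β n - 1 + 1 := by omega
      rw [e2] at o2 ⊢
      have s1 := stepH V F hf o1 o3
      have s2 := stepV V F hf o3 o2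
      rw [s2, s1]

/-- all 4-neighbours of a maximal island have the same corrected colour -/
lemma collar (F : Fn L) (hf : ∀ x y, M L x y → fin L x y) {a β : ℤ} {N : ℕ} (h : Mx L a β N) :
    (∀ n ≤ N, pr L (a + n) (pos L a (β + 10) n + 1) = pr L (a - 1) (β - 1)) ∧
    (∀ n ≤ N, pr L (a + n) (pos L a β n - 1) = pr L (a - 1) (β - 1)) ∧
    (∀ y, β ≤ y → y ≤ β + 10 → pr L (a - 1) y = pr L (a - 1) (β - 1)) ∧
    (∀ y, pos L a β N ≤ y → y ≤ pos L a (β + 10) N →
      pr L (a + N + 1) y = pr L (a - 1) (β - 1)) := by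
  have e1 : a - 1 + 1 = a := by ring
  have hbot0 : pr L a (β - 1) = pr L (a - 1) (β - 1) := by
    have o1 := left_out V h (y := β - 1) (by omega) (by omega)
    have o2 := bot_out V h (Nat.zero_le _)
    simp only [Nat.cast_zero, add_zero, pos_zero] at o2
    have := stepH V F hf o1 (by rw [e1]; exact o2)
    rwa [e1] at this
  have htop0 : pr L a (β + 11) = pr L (a - 1) (β - 1) := by
    have o1 := left_out V h (y := β + 11) (by omega) (by omega)
    have o2 := top_out V h (Nat.zero_le _)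
    have e2 : β + 10 + 1 = β + 11 := by ring
    simp only [Nat.cast_zero, add_zero, pos_zero] at o2
    rw [e2] at o2
    have := stepH V F hf o1 (by rw [e1]; exact o2)
    rw [e1] at this
    rw [this]
    have h3 := left_pr V F hf h 12 le_rfl
    rw [← h3]; congr 1; push_cast; ring
  have hb : ∀ n ≤ N, pr L (a + n) (pos L a β n - 1) = pr L (a - 1) (β - 1) :=
    fun n hn => (bot_pr V F hf h n hn).trans hbot0
  refine ⟨fun n hn => (top_pr V F hf h n hn).trans htop0, hb, ?_, ?_⟩
  · intro y h1 h2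
    have h3 := left_pr V F hf h (y - (β - 1)).toNat (by omega)
    rw [← h3]; congr 1; omega
  · intro y h1 h2
    have hg := h.1.eq
    have h3 := right_pr V F hf h (y - (pos L a β N - 1)).toNat (by omega)
    have h4 : pr L (a + N + 1) (pos L a β N - 1) = pr L (a - 1) (β - 1) := by
      have := stepH V F hf (bot_out V h le_rfl) (right_out V h (y := pos L a β N - 1)
        (by omega) (by omega))
      rw [this]; exact hb N le_rfl
    rw [← h4, ← h3]; congr 1; omega

/-- a site next to a maximal island -/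
lemma nextH (F : Fn L) (hf : ∀ x y, M L x y → fin L x y) {a β : ℤ} {N : ℕ} (h : Mx L a β N)
    {x y : ℤ} (h1 : inI L a β N x y) (h2 : ¬ inI L a β N (x + 1) y) :
    pr L (x + 1) y = pr L (a - 1) (β - 1) := by
  obtain ⟨c1, c2, c3, c4⟩ := collar V F hf h
  obtain ⟨n, hn, rfl, hl, hh⟩ := h1
  rcases Nat.lt_or_ge n N with hlt | hge
  · have e : a + ((n + 1 : ℕ) : ℤ) = a + n + 1 := by push_cast; ring
    rw [← e, inI_iff hlt] at h2
    rw [← e]
    have d1 := le_dv L (a + n) (pos L a β n)
    have d2 := dv_le L (a + n) (pos L a β n)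
    have hs := pos_succ (L := L) a β n
    have d1' := le_dv L (a + n) (pos L a (β + 10) n)
    have d2' := dv_le L (a + n) (pos L a (β + 10) n)
    have hs' := pos_succ (L := L) a (β + 10) n
    by_cases hc : pos L a β (n + 1) ≤ y
    · have : y = pos L a (β + 10) (n + 1) + 1 := by
        have : ¬ y ≤ pos L a (β + 10) (n + 1) := fun h => h2 ⟨hc, h⟩
        omega
      rw [this]; exact c1 (n + 1) hlt
    · have : y = pos L a β (n + 1) - 1 := by omega
      rw [this]; exact c2 (n + 1) hlt
  · have : n = N := le_antisymm hn hge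
    subst this
    exact c4 y hl hh

lemma prevH (F : Fn L) (hf : ∀ x y, M L x y → fin L x y) {a β : ℤ} {N : ℕ} (h : Mx L a β N)
    {x y : ℤ} (h1 : inI L a β N (x + 1) y) (h2 : ¬ inI L a β N x y) :
    pr L x y = pr L (a - 1) (β - 1) := by
  obtain ⟨c1, c2, c3, c4⟩ := collar V F hf h
  obtain ⟨n, hn, hx, hl, hh⟩ := h1
  rcases Nat.eq_zero_or_pos n with h0 | hpos
  · subst h0
    have : x = a - 1 := by simp at hx; omega
    subst this
    exact c3 y (by simpa using hl) (by simpa using hh)
  · obtain ⟨m, rfl⟩ := Nat.exists_eq_add_of_le' hpos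
    have : x = a + m := by push_cast at hx; omega
    subst this
    rw [inI_iff (by omega)] at h2
    have d1 := le_dv L (a + m) (pos L a β m)
    have d2 := dv_le L (a + m) (pos L a β m)
    have hs := pos_succ (L := L) a β m
    have d1' := le_dv L (a + m) (pos L a (β + 10) m)
    have d2' := dv_le L (a + m) (pos L a (β + 10) m)
    have hs' := pos_succ (L := L) a (β + 10) m
    have hl' : pos L a β (m + 1) ≤ y := hl
    have hh' : y ≤ pos L a (β + 10) (m + 1) := hh
    by_cases hc : pos L a β m ≤ y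
    · have : y = pos L a (β + 10) m + 1 := by
        have : ¬ y ≤ pos L a (β + 10) m := fun h => h2 ⟨hc, h⟩
        omega
      rw [this]; exact c1 m (by omega)
    · have : y = pos L a β m - 1 := by omega
      rw [this]; exact c2 m (by omega)

lemma nextV (F : Fn L) (hf : ∀ x y, M L x y → fin L x y) {a β : ℤ} {N : ℕ} (h : Mx L a β N)
    {x y : ℤ} (h1 : inI L a β N x y) (h2 : ¬ inI L a β N x (y + 1)) :
    pr L x (y + 1) = pr L (a - 1) (β - 1) := by
  obtain ⟨c1, -, -, -⟩ := collar V F hf h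
  obtain ⟨n, hn, rfl, hl, hh⟩ := h1
  rw [inI_iff hn] at h2
  have : y = pos L a (β + 10) n := by
    by_contra hc
    exact h2 ⟨by omega, by omega⟩
  rw [this]; exact c1 n hn

lemma prevV (F : Fn L) (hf : ∀ x y, M L x y → fin L x y) {a β : ℤ} {N : ℕ} (h : Mx L a β N)
    {x y : ℤ} (h1 : inI L a β N x (y + 1)) (h2 : ¬ inI L a β N x y) :
    pr L x y = pr L (a - 1) (β - 1) := by
  obtain ⟨-, c2, -, -⟩ := collar V F hf h
  obtain ⟨n, hn, rfl, hl, hh⟩ := h1
  rw [inI_iff hn] at h2
  have : y = pos L a β n - 1 := by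
    by_contra hc
    exact h2 ⟨by omega, by omega⟩
  rw [this]; exact c2 n hn

lemma Mx.eq {a1 β1 a2 β2 : ℤ} {N1 N2 : ℕ} (h1 : Mx L a1 β1 N1) (h2 : Mx L a2 β2 N2)
    {x y : ℤ} (i1 : inI L a1 β1 N1 x y) (i2 : inI L a2 β2 N2 x y) :
    a1 = a2 ∧ β1 = β2 ∧ N1 = N2 := by
  rcases lam V h1.1 h2.1 i1 i2 with h | h | h
  · exact h
  · exact absurd h (h2.2 _ _ _ h1.1)
  · exact absurd h (h1.2 _ _ _ h2.1)

/-- the corrected colour of the component -/
def Col (L : Cfg) (x y : ℤ) (p : ZMod 2) : Prop :=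
  (Out L x y ∧ pr L x y = p) ∨
    ∃ a β N, Mx L a β N ∧ inI L a β N x y ∧ pr L (a - 1) (β - 1) = p

omit V in
lemma exists_Col (nI : ∀ x y, {c : ℤ × ℤ | QI L x y c.1 c.2}.Finite) (x y : ℤ) :
    ∃ p, Col L x y p := by
  by_cases h : Out L x y
  · exact ⟨_, Or.inl ⟨h, rfl⟩⟩
  · obtain ⟨a, β, N, h1, h2⟩ := exists_Mx nI h
    exact ⟨_, Or.inr ⟨a, β, N, h1, h2, rfl⟩⟩

lemma Col_unique {x y : ℤ} {p q : ZMod 2} (h1 : Col L x y p) (h2 : Col L x y q) : p = q := by
  rcases h1 with ⟨h1, rfl⟩ | ⟨a, β, N, hI, hin, rfl⟩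
  · rcases h2 with ⟨h2, rfl⟩ | ⟨a, β, N, hI, hin, rfl⟩
    · rfl
    · exact absurd hin (h1 _ _ _ hI.1)
  · rcases h2 with ⟨h2, rfl⟩ | ⟨a', β', N', hI', hin', rfl⟩
    · exact absurd hin (h2 _ _ _ hI.1)
    · obtain ⟨rfl, rfl, rfl⟩ := hI.eq V hI' hin hin'
      rfl

lemma Col_H (F : Fn L) (hf : ∀ x y, M L x y → fin L x y) {x y : ℤ} {p q : ZMod 2}
    (h1 : Col L x y p) (h2 : Col L (x + 1) y q) : p = q := by
  rcases h1 with ⟨h1, rfl⟩ | ⟨a, β, N, hI, hin, rfl⟩
  · rcases h2 with ⟨h2, rfl⟩ | ⟨a, β, N, hI, hin, rfl⟩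
    · exact (stepH V F hf h1 h2).symm
    · exact prevH V F hf hI hin (h1 _ _ _ hI.1)
  · rcases h2 with ⟨h2, rfl⟩ | ⟨a', β', N', hI', hin', rfl⟩
    · exact (nextH V F hf hI hin (h2 _ _ _ hI.1)).symm
    · by_cases hc : inI L a β N (x + 1) y
      · obtain ⟨rfl, rfl, rfl⟩ := hI.eq V hI' hc hin'
        rfl
      · exact absurd hin' (hI.out V hin hc (by omega) (by omega) (by omega) (by omega) _ _ _ hI'.1)

lemma Col_V (F : Fn L) (hf : ∀ x y, M L x y → fin L x y) {x y : ℤ} {p q : ZMod 2}
    (h1 : Col L x y p) (h2 : Col L x (y + 1) q) : p = q := by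
  rcases h1 with ⟨h1, rfl⟩ | ⟨a, β, N, hI, hin, rfl⟩
  · rcases h2 with ⟨h2, rfl⟩ | ⟨a, β, N, hI, hin, rfl⟩
    · exact (stepV V F hf h1 h2).symm
    · exact prevV V F hf hI hin (h1 _ _ _ hI.1)
  · rcases h2 with ⟨h2, rfl⟩ | ⟨a', β', N', hI', hin', rfl⟩
    · exact (nextV V F hf hI hin (h2 _ _ _ hI.1)).symm
    · by_cases hc : inI L a β N x (y + 1)
      · obtain ⟨rfl, rfl, rfl⟩ := hI.eq V hI' hc hin'
        rfl
      · exact absurd hin' (hI.out V hin hc (by omega) (by omega) (by omega) (by omega) _ _ _ hI'.1)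

end

/-- The colour corrected by the checkerboard colouring is constant outside all islands. -/
theorem parity {L : Cfg} (V : ∀ x y, Rl L x y) (F : Fn L) (hf : ∀ x y, M L x y → fin L x y)
    (nI : ∀ x y, {c : ℤ × ℤ | QI L x y c.1 c.2}.Finite) :
    (∃ x y, Out L x y) ∧ ∃ p : ZMod 2, ∀ x y, Out L x y → col L x y + x + y = p := by
  constructor
  · by_cases h : Out L 0 0
    · exact ⟨0, 0, h⟩
    · obtain ⟨a, β, N, h1, -⟩ := exists_Mx nI h
      exact ⟨a - 1, β, left_out V h1 (by omega) (by omega)⟩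
  · choose g hg using exists_Col (L := L) nI
    have hH : ∀ x y, g (x + 1) y = g x y := fun x y => (Col_H V F hf (hg x y) (hg (x + 1) y)).symm
    have hV : ∀ x y, g x (y + 1) = g x y := fun x y => (Col_V V F hf (hg x y) (hg x (y + 1))).symm
    have h1 : ∀ x y, g x y = g 0 y := by
      intro x y
      induction x using Int.induction_on with
      | zero => rfl
      | succ n ih => rw [hH, ih]
      | pred n ih =>
        have := hH (-(n : ℤ) - 1) y
        rw [sub_add_cancel] at this
        rw [← this, ih]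
    have h2 : ∀ y, g 0 y = g 0 0 := by
      intro y
      induction y using Int.induction_on with
      | zero => rfl
      | succ n ih => rw [hV, ih]
      | pred n ih =>
        have := hV 0 (-(n : ℤ) - 1)
        rw [sub_add_cancel] at this
        rw [← this, ih]
    refine ⟨g 0 0, fun x y h => ?_⟩
    rw [← h2 y, ← h1 x y]
    exact Col_unique V (Or.inl ⟨h, rfl⟩) (hg x y)

end LCLZ
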